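import Pool.Agent.H12.Zono4

set_option autoImplicit false

namespace Pool.Agent.Results.MP_a2b267_co.EdgeConn

open Pool.Agent.H12.Zono

theorem result :
    ∀ (l : ℕ), 3 ≤ l → ∀ (V E : Type) [Fintype V] [DecidableEq V] [Fintype E] (s t : E → V),
      (∀ S : Set V, S.Nonempty → Sᶜ.Nonempty →
        l ≤ Nat.card {e : E // (s e ∈ S ∧ t e ∉ S) ∨ (s e ∉ S ∧ t e ∈ S)}) →
      ∃ f : E → ℝ, (∀ e, 1 ≤ |f e| ∧ |f e| ≤ ((l : ℝ) + 2) / ((l : ℝ) - 2)) ∧
        ∀ v : V, (∑ e ∈ Finset.univ.filter (fun e => t e = v), f e)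
                 = ∑ e ∈ Finset.univ.filter (fun e => s e = v), f e := by
  intro l hl V E _ _ _ s t h
  classical
  have hl' : (3 : ℝ) ≤ l := by exact_mod_cast hl
  have hp := partConn_of_cuts s t l (fun S h1 h2 => by
    have h3 : ((S : Set V)ᶜ).Nonempty := by
      by_contra h4
      apply h2
      rw [Set.not_nonempty_iff_eq_empty, Set.compl_empty_iff] at h4
      exact Finset.coe_eq_univ.1 h4
    have := h S (by simpa using h1) h3
    rw [Nat.card_eq_fintype_card, Fintype.card_subtype] at this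
    simpa using this)
  obtain ⟨f, hf, hb⟩ := real_flow s t ((l : ℝ) / 2) (by linarith) hp
  have hpos : (0 : ℝ) < (l : ℝ) / 2 - 1 := by linarith
  refine ⟨fun e => ((l : ℝ) / 2 - 1)⁻¹ * f e, fun e => ?_, fun v => ?_⟩
  · rw [abs_mul, abs_of_pos (inv_pos.2 hpos), ← div_eq_inv_mul, le_div_iff₀ hpos,
      div_le_div_iff₀ hpos (by linarith)]
    have := hf e
    constructor <;> nlinarith [this.1, this.2]
  · have := bd_mul s t ((l : ℝ) / 2 - 1)⁻¹ f v
    rw [hb, mul_zero, bd, sub_eq_zero] at this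
    exact this.symm

end Pool.Agent.Results.MP_a2b267_co.EdgeConn
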